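import Mathlib

/-!
# The Fabrikowski-Gupta group: letters, sections and counts
-/

set_option autoImplicit false

namespace Pool.Agent.H64.FG

/-- The vertices of the ternary rooted tree: finite words in the letters `0, 1, 2`. -/
abbrev V := List (ZMod 3)

/-- add `e` to the first letter -/
def rotFun (e : ZMod 3) : V → V
  | [] => []
  | x :: w => (x + e) :: w

lemma rotFun_rotFun (e f : ZMod 3) (w : V) : rotFun e (rotFun f w) = rotFun (f + e) w := by
  cases w with
  | nil => rfl
  | cons x w => simp [rotFun, add_assoc]

lemma rotFun_zero (w : V) : rotFun 0 w = w := by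
  cases w with
  | nil => rfl
  | cons x w => simp [rotFun]

/-- The rooted automorphism `a`: it adds `1` to the first letter. -/
def a : Equiv.Perm V where
  toFun := rotFun 1
  invFun := rotFun (-1)
  left_inv w := by rw [rotFun_rotFun, add_neg_cancel, rotFun_zero]
  right_inv w := by rw [rotFun_rotFun, neg_add_cancel, rotFun_zero]

/-- The directed automorphism: it fixes the first letter, and acts on the remaining word by adding `e`
to the next letter if the first letter is `0`, by itself if the first letter is `2`, and trivially if the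
first letter is `1`. -/
def dirFun (e : ZMod 3) : V → V
  | [] => []
  | x :: w => x :: (if x = 0 then rotFun e w else if x = 2 then dirFun e w else w)

lemma dirFun_dirFun (e f : ZMod 3) (w : V) : dirFun e (dirFun f w) = dirFun (f + e) w := by
  induction w with
  | nil => rfl
  | cons x w ih =>
    simp only [dirFun]
    split_ifs
    · rw [rotFun_rotFun]
    · rw [ih]
    · rfl

lemma dirFun_zero (w : V) : dirFun 0 w = w := by
  induction w with
  | nil => rfl
  | cons x w ih =>
    simp only [dirFun]
    split_ifs
    · rw [rotFun_zero]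
    · rw [ih]
    · rfl

/-- The directed automorphism `b = (a, 1, b)`. -/
def b : Equiv.Perm V where
  toFun := dirFun 1
  invFun := dirFun (-1)
  left_inv w := by rw [dirFun_dirFun, add_neg_cancel, dirFun_zero]
  right_inv w := by rw [dirFun_dirFun, neg_add_cancel, dirFun_zero]

/-- formal letters -/
inductive Lt
  | A (s : Bool)
  | B (s : Bool)
  deriving DecidableEq

/-- sign of a letter -/
def sg (s : Bool) : ZMod 3 := if s then 1 else -1

/-- the value of a letter -/
def val : Lt → Equiv.Perm V
  | .A s => if s then a else a⁻¹
  | .B s => if s then b else b⁻¹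

lemma val_A (s : Bool) (w : V) : val (.A s) w = rotFun (sg s) w := by
  cases s <;> rfl

lemma val_B (s : Bool) (w : V) : val (.B s) w = dirFun (sg s) w := by
  cases s <;> rfl

/-- value of a word -/
def ev (l : List Lt) : Equiv.Perm V := (l.map val).prod

@[simp] lemma ev_nil : ev [] = 1 := rfl
@[simp] lemma ev_cons (c : Lt) (l : List Lt) : ev (c :: l) = val c * ev l := by simp [ev]
@[simp] lemma ev_append (l l' : List Lt) : ev (l ++ l') = ev l * ev l' := by simp [ev]

/-- total rotation -/
def rot : List Lt → ZMod 3
  | [] => 0
  | .A s :: l => rot l + sg s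
  | .B _ :: l => rot l

/-- contribution of a letter `B s` to the section at a vertex which is at `y` -/
def con (s : Bool) (y : ZMod 3) : List Lt :=
  if y = 0 then [.A s] else if y = 2 then [.B s] else []

/-- section at `x` -/
def sec : List Lt → ZMod 3 → List Lt
  | [], _ => []
  | .A _ :: l, x => sec l x
  | .B s :: l, x => con s (x + rot l) ++ sec l x

lemma rot_append (l l' : List Lt) : rot (l ++ l') = rot l' + rot l := by
  induction l with
  | nil => simp [rot]
  | cons c l ih =>
    cases c with
    | A s => simp only [List.cons_append, rot, ih]; ring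
    | B s => simp only [List.cons_append, rot, ih]

lemma sec_append (l l' : List Lt) (x : ZMod 3) :
    sec (l ++ l') x = sec l (x + rot l') ++ sec l' x := by
  induction l with
  | nil => simp [sec]
  | cons c l ih =>
    cases c with
    | A s => simp only [List.cons_append, sec, ih]
    | B s =>
      simp only [List.cons_append, sec, ih, rot_append, List.append_assoc]
      congr 2
      ring

lemma con_act (s : Bool) (y : ZMod 3) (w : V) :
    dirFun (sg s) (y :: w) = y :: ev (con s y) w := by
  simp only [dirFun, con]
  split_ifs with h1 h2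
  · simp [val_A]
  · simp [val_B]
  · simp

lemma ev_act (l : List Lt) (x : ZMod 3) (w : V) :
    ev l (x :: w) = (x + rot l) :: ev (sec l x) w := by
  induction l with
  | nil => simp [rot, sec]
  | cons c l ih =>
    rw [ev_cons, Equiv.Perm.mul_apply, ih]
    cases c with
    | A s =>
      rw [val_A]
      simp only [rotFun, rot, sec]
      rw [add_assoc]
    | B s =>
      rw [val_B, con_act]
      simp only [rot, sec, ev_append, Equiv.Perm.mul_apply]

lemma ev_sec {l l' : List Lt} (h : ev l = ev l') (x : ZMod 3) : ev (sec l x) = ev (sec l' x) := by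
  ext1 w
  have h1 := ev_act l x w
  rw [h, ev_act] at h1
  exact ((List.cons.inj h1).2).symm

/-- number of letters `A` -/
def na : List Lt → ℕ
  | [] => 0
  | .A _ :: l => na l + 1
  | .B _ :: l => na l

/-- number of letters `B` -/
def nb : List Lt → ℕ
  | [] => 0
  | .A _ :: l => nb l
  | .B _ :: l => nb l + 1

/-- number of letters `B` followed by the rotation `z` -/
def mz : List Lt → ZMod 3 → ℕ
  | [], _ => 0
  | .A _ :: l, z => mz l z
  | .B _ :: l, z => (if rot l = z then 1 else 0) + mz l z

lemma na_append (l l' : List Lt) : na (l ++ l') = na l + na l' := by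
  induction l with
  | nil => simp [na]
  | cons c l ih => cases c <;> (simp only [List.cons_append, na, ih]; try ring)

lemma nb_append (l l' : List Lt) : nb (l ++ l') = nb l + nb l' := by
  induction l with
  | nil => simp [nb]
  | cons c l ih => cases c <;> (simp only [List.cons_append, nb, ih]; try ring)

lemma length_eq (l : List Lt) : l.length = na l + nb l := by
  induction l with
  | nil => rfl
  | cons c l ih => cases c <;> simp only [List.length_cons, na, nb, ih] <;> ring

lemma na_con (s : Bool) (y : ZMod 3) : na (con s y) = if y = 0 then 1 else 0 := by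
  unfold con
  split_ifs <;> rfl

lemma nb_con (s : Bool) (y : ZMod 3) : nb (con s y) = if y = 2 then 1 else 0 := by
  unfold con
  split_ifs with h1 h2 h3
  · subst h1; exact absurd h2 (by decide)
  · rfl
  · rfl
  · rfl

lemma na_sec (l : List Lt) (x : ZMod 3) : na (sec l x) = mz l (-x) := by
  induction l with
  | nil => rfl
  | cons c l ih =>
    cases c with
    | A s => simpa [sec, mz] using ih
    | B s =>
      simp only [sec, mz, na_append, ih, na_con]
      congr 1
      have : (x + rot l = 0) ↔ (rot l = -x) := by
        constructor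
        · intro h; linear_combination h
        · intro h; linear_combination h
      simp [this]

lemma nb_sec (l : List Lt) (x : ZMod 3) : nb (sec l x) = mz l (2 - x) := by
  induction l with
  | nil => rfl
  | cons c l ih =>
    cases c with
    | A s => simpa [sec, mz] using ih
    | B s =>
      simp only [sec, mz, nb_append, ih, nb_con]
      congr 1
      have : (x + rot l = 2) ↔ (rot l = 2 - x) := by
        constructor
        · intro h; linear_combination h
        · intro h; linear_combination h
      simp [this]

lemma one_rot (r : ZMod 3) : (if r = 0 then 1 else 0) + (if r = 1 then 1 else 0) +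
    (if r = 2 then 1 else 0) = 1 := by
  revert r; decide

lemma nb_eq (l : List Lt) : nb l = mz l 0 + mz l 1 + mz l 2 := by
  induction l with
  | nil => rfl
  | cons c l ih =>
    cases c with
    | A s => simpa [nb, mz] using ih
    | B s =>
      simp only [nb, mz, ih]
      have := one_rot (rot l)
      omega

/-- the word `(A s, B t)` repeated `n` times -/
def pw (s t : Bool) : ℕ → List Lt
  | 0 => []
  | n + 1 => [.A s, .B t] ++ pw s t n

/-- the word `(B t, A s)` repeated `n` times -/
def qw (s t : Bool) : ℕ → List Lt
  | 0 => []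
  | n + 1 => [.B t, .A s] ++ qw s t n

lemma pw_add (s t : Bool) (m n : ℕ) : pw s t (m + n) = pw s t m ++ pw s t n := by
  induction m with
  | zero => simp [pw]
  | succ m ih => rw [Nat.succ_add, pw, ih, pw, List.append_assoc]

lemma qw_add (s t : Bool) (m n : ℕ) : qw s t (m + n) = qw s t m ++ qw s t n := by
  induction m with
  | zero => simp [qw]
  | succ m ih => rw [Nat.succ_add, qw, ih, qw, List.append_assoc]

lemma nb_pw (s t : Bool) (n : ℕ) : nb (pw s t n) = n := by
  induction n with
  | zero => rfl
  | succ n ih => simp [pw, nb, ih]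

lemma nb_qw (s t : Bool) (n : ℕ) : nb (qw s t n) = n := by
  induction n with
  | zero => rfl
  | succ n ih => simp [qw, nb, ih]

lemma rot_pw3 (s t : Bool) (n : ℕ) : rot (pw s t (3 * n)) = 0 := by
  induction n with
  | zero => rfl
  | succ n ih =>
    rw [Nat.mul_succ, pw_add, rot_append, ih]
    clear ih
    revert s t; decide

lemma rot_qw3 (s t : Bool) (n : ℕ) : rot (qw s t (3 * n)) = 0 := by
  induction n with
  | zero => rfl
  | succ n ih =>
    rw [Nat.mul_succ, qw_add, rot_append, ih]
    clear ih
    revert s t; decide

lemma sec_pw_one (s t : Bool) (x : ZMod 3) :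
    sec (pw s t 3) x = pw t t 1 ∨ sec (pw s t 3) x = qw t t 1 := by
  revert s t x; decide

lemma sec_qw_one (s t : Bool) (x : ZMod 3) :
    sec (qw s t 3) x = pw t t 1 ∨ sec (qw s t 3) x = qw t t 1 := by
  revert s t x; decide

lemma sec_pw (s t : Bool) (n : ℕ) (x : ZMod 3) :
    sec (pw s t (3 * n)) x = pw t t n ∨ sec (pw s t (3 * n)) x = qw t t n := by
  rcases sec_pw_one s t x with h | h
  · left
    induction n with
    | zero => rfl
    | succ n ih =>
      rw [Nat.mul_succ, pw_add, sec_append]
      rw [show rot (pw s t 3) = 0 from rot_pw3 s t 1, add_zero, ih, h, ← pw_add]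
  · right
    induction n with
    | zero => rfl
    | succ n ih =>
      rw [Nat.mul_succ, pw_add, sec_append]
      rw [show rot (pw s t 3) = 0 from rot_pw3 s t 1, add_zero, ih, h, ← qw_add]

lemma sec_qw (s t : Bool) (n : ℕ) (x : ZMod 3) :
    sec (qw s t (3 * n)) x = pw t t n ∨ sec (qw s t (3 * n)) x = qw t t n := by
  rcases sec_qw_one s t x with h | h
  · left
    induction n with
    | zero => rfl
    | succ n ih =>
      rw [Nat.mul_succ, qw_add, sec_append]
      rw [show rot (qw s t 3) = 0 from rot_qw3 s t 1, add_zero, ih, h, ← pw_add]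
  · right
    induction n with
    | zero => rfl
    | succ n ih =>
      rw [Nat.mul_succ, qw_add, sec_append]
      rw [show rot (qw s t 3) = 0 from rot_qw3 s t 1, add_zero, ih, h, ← qw_add]

lemma nb_eq_sec (l : List Lt) : nb l = nb (sec l 0) + nb (sec l 1) + nb (sec l 2) := by
  rw [nb_eq, nb_sec, nb_sec, nb_sec]
  have h1 : (2 - 0 : ZMod 3) = 2 := by decide
  have h2 : (2 - 1 : ZMod 3) = 1 := by decide
  have h3 : (2 - 2 : ZMod 3) = 0 := by decide
  rw [h1, h2, h3]
  ring

lemma sec_nil_of_nb {l : List Lt} (h : nb l = 0) (x : ZMod 3) : sec l x = [] := by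
  induction l with
  | nil => rfl
  | cons c l ih =>
    cases c with
    | A s => exact ih h
    | B s => simp [nb] at h

lemma valA_ne (s : Bool) : ev [Lt.A s] ≠ 1 := by
  intro h
  have h1 := DFunLike.congr_fun h ([0] : V)
  rw [ev_cons, ev_nil, mul_one, val_A] at h1
  revert h1
  cases s <;> decide

lemma base (s t : Bool) (l : List Lt) (h : ev l = ev (pw s t 1) ∨ ev l = ev (qw s t 1)) :
    1 ≤ nb l := by
  by_contra hc
  have h0 : nb l = 0 := by omega
  rcases h with h | h
  · have h1 := ev_sec h 0
    rw [sec_nil_of_nb h0] at h1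
    have h2 : sec (pw s t 1) 0 = [Lt.A t] := by clear h h1; revert s t; decide
    rw [h2] at h1
    exact valA_ne t h1.symm
  · have h1 := ev_sec h (-(sg s))
    rw [sec_nil_of_nb h0] at h1
    have h2 : sec (qw s t 1) (-(sg s)) = [Lt.A t] := by clear h h1; revert s t; decide
    rw [h2] at h1
    exact valA_ne t h1.symm

lemma lower_pow (k : ℕ) : ∀ (s t : Bool) (l : List Lt),
    (ev l = ev (pw s t (3 ^ k)) ∨ ev l = ev (qw s t (3 ^ k))) → 3 ^ k ≤ nb l := by
  induction k with
  | zero => intro s t l h; exact base s t l h
  | succ k ih =>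
    intro s t l h
    have key : ∀ x, 3 ^ k ≤ nb (sec l x) := by
      intro x
      rcases h with h | h
      · have h1 := ev_sec h x
        rw [pow_succ, mul_comm] at h1
        rcases sec_pw s t (3 ^ k) x with h2 | h2
        · exact ih t t _ (Or.inl (by rw [h1, h2]))
        · exact ih t t _ (Or.inr (by rw [h1, h2]))
      · have h1 := ev_sec h x
        rw [pow_succ, mul_comm] at h1
        rcases sec_qw s t (3 ^ k) x with h2 | h2
        · exact ih t t _ (Or.inl (by rw [h1, h2]))
        · exact ih t t _ (Or.inr (by rw [h1, h2]))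
    rw [nb_eq_sec, pow_succ]
    have := key 0
    have := key 1
    have := key 2
    omega

lemma lower_pw {m : ℕ} {s t : Bool} {l : List Lt} (h : ev l = ev (pw s t m)) : m ≤ nb l := by
  have h3 : m ≤ 3 ^ m := (Nat.lt_pow_self (by norm_num)).le
  have h1 := lower_pow m s t (l ++ pw s t (3 ^ m - m)) (Or.inl (by
    rw [ev_append, h, ← ev_append, ← pw_add, Nat.add_sub_cancel' h3]))
  rw [nb_append, nb_pw] at h1
  omega

lemma lower_qw {m : ℕ} {s t : Bool} {l : List Lt} (h : ev l = ev (qw s t m)) : m ≤ nb l := by
  have h3 : m ≤ 3 ^ m := (Nat.lt_pow_self (by norm_num)).le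
  have h1 := lower_pow m s t (l ++ qw s t (3 ^ m - m)) (Or.inr (by
    rw [ev_append, h, ← ev_append, ← qw_add, Nat.add_sub_cancel' h3]))
  rw [nb_append, nb_qw] at h1
  omega

/-- the word for `b ^ f` with at most one letter -/
def bw (f : ZMod 3) : List Lt := if f = 0 then [] else if f = 1 then [.B true] else [.B false]

lemma ev_bw (f : ZMod 3) (w : V) : ev (bw f) w = dirFun f w := by
  unfold bw
  split_ifs with h1 h2
  · subst h1; rw [dirFun_zero]; rfl
  · subst h2; simp [val_B, sg]
  · have h3 : f = -1 := by
      revert h1 h2; revert f; decide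
    subst h3
    simp [val_B, sg]

lemma nb_bw (f : ZMod 3) : nb (bw f) ≤ 1 := by
  unfold bw; split_ifs <;> simp [nb]

lemma reduce_aux (l : List Lt) : ∃ (f : ZMod 3) (l' : List Lt),
    ev l = ev (bw f ++ l') ∧ nb l' ≤ na l := by
  induction l with
  | nil => exact ⟨0, [], by simp [bw], le_refl _⟩
  | cons c l ih =>
    obtain ⟨f, l', h1, h2⟩ := ih
    cases c with
    | A s =>
      refine ⟨0, .A s :: (bw f ++ l'), ?_, ?_⟩
      · rw [ev_cons, h1]; simp [bw]
      · rw [nb, nb_append, na]
        have := nb_bw f
        omega
    | B s =>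
      refine ⟨f + sg s, l', ?_, h2⟩
      rw [ev_cons, h1, ev_append, ev_append, ← mul_assoc]
      congr 1
      ext1 w
      rw [Equiv.Perm.mul_apply, ev_bw, ev_bw, val_B, dirFun_dirFun]

lemma reduce (l : List Lt) : ∃ l' : List Lt, ev l' = ev l ∧ nb l' ≤ na l + 1 := by
  obtain ⟨f, l', h1, h2⟩ := reduce_aux l
  refine ⟨bw f ++ l', h1.symm, ?_⟩
  rw [nb_append]
  have := nb_bw f
  omega

lemma lower_na_pw {m : ℕ} {s t : Bool} {l : List Lt} (h : ev l = ev (pw s t m)) : m ≤ na l := by
  obtain ⟨l', h1, h2⟩ := reduce (l ++ l)
  have h3 : ev l' = ev (pw s t (m + m)) := by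
    rw [h1, ev_append, h, pw_add, ev_append]
  have h4 := lower_pw h3
  rw [na_append] at h2
  omega

lemma lower_na_qw {m : ℕ} {s t : Bool} {l : List Lt} (h : ev l = ev (qw s t m)) : m ≤ na l := by
  obtain ⟨l', h1, h2⟩ := reduce (l ++ l)
  have h3 : ev l' = ev (qw s t (m + m)) := by
    rw [h1, ev_append, h, qw_add, ev_append]
  have h4 := lower_qw h3
  rw [na_append] at h2
  omega

/-- products of the blocks `(a b)³` and `(a⁻¹ b)³` -/
def ww : List Bool → List Lt
  | [] => []
  | s :: c => pw s true 3 ++ ww c

lemma rot_ww (c : List Bool) : rot (ww c) = 0 := by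
  induction c with
  | nil => rfl
  | cons s c ih => rw [ww, rot_append, ih, show rot (pw s true 3) = 0 from rot_pw3 s true 1, add_zero]

lemma sec_ww_zero (c : List Bool) : sec (ww c) 0 = qw true true c.length := by
  induction c with
  | nil => rfl
  | cons s c ih =>
    rw [ww, sec_append, rot_ww, add_zero, ih, List.length_cons, add_comm, qw_add]
    congr 1
    revert s; decide

lemma sec_ww_two (c : List Bool) : sec (ww c) 2 = pw true true c.length := by
  induction c with
  | nil => rfl
  | cons s c ih =>
    rw [ww, sec_append, rot_ww, add_zero, ih, List.length_cons, add_comm, pw_add]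
    congr 1
    revert s; decide

/-- the words `ww c` without the first letter -/
def wt (c : List Bool) : List Lt := (ww c).tail

lemma sec_wt (c : List Bool) (x : ZMod 3) : sec (wt c) x = sec (ww c) x := by
  cases c with
  | nil => rfl
  | cons s c => rfl

lemma nb_lower {l : List Lt} {c : List Bool} (h : ev l = ev (wt c)) : 3 * c.length ≤ nb l := by
  have h0 : ev (sec l 0) = ev (qw true true c.length) := by
    rw [ev_sec h 0, sec_wt, sec_ww_zero]
  have h2 : ev (sec l 2) = ev (pw true true c.length) := by
    rw [ev_sec h 2, sec_wt, sec_ww_two]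
  have e1 := lower_qw h0
  have e2 := lower_na_qw h0
  have e3 := lower_na_pw h2
  rw [nb_sec] at e1
  rw [na_sec] at e2 e3
  have k1 : (2 - 0 : ZMod 3) = 2 := by decide
  have k2 : (-0 : ZMod 3) = 0 := by decide
  have k3 : (-2 : ZMod 3) = 1 := by decide
  rw [k1] at e1
  rw [k2] at e2
  rw [k3] at e3
  rw [nb_eq]
  omega

lemma length_ww (c : List Bool) : (ww c).length = 6 * c.length := by
  induction c with
  | nil => rfl
  | cons s c ih => rw [ww, List.length_append, ih, List.length_cons]; simp [pw]; ring

/-- the words `wt c` are shortest -/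
theorem wt_shortest (l : List Lt) (c : List Bool) (h : ev l = ev (wt c)) :
    (wt c).length ≤ l.length := by
  have h1 := nb_lower h
  obtain ⟨l', h2, h3⟩ := reduce l
  have h4 := nb_lower (l := l') (c := c) (by rw [h2, h])
  have h5 : (wt c).length = 6 * c.length - 1 := by
    rw [wt, List.length_tail, length_ww]
  rw [h5, length_eq]
  omega

lemma ww_injective : Function.Injective ww := by
  intro c c' h
  induction c generalizing c' with
  | nil =>
    cases c' with
    | nil => rfl
    | cons s c' => simp [ww, pw] at h
  | cons s c ih =>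
    cases c' with
    | nil => simp [ww, pw] at h
    | cons s' c' =>
      simp only [ww, pw, List.cons_append, List.nil_append, List.cons.injEq, Lt.A.injEq,
        true_and] at h
      obtain ⟨h1, -, -, h2⟩ := h
      rw [h1, ih h2]

lemma wt_injective {c c' : List Bool} (h : wt c = wt c') (hl : c.length = c'.length) : c = c' := by
  cases c with
  | nil =>
    cases c' with
    | nil => rfl
    | cons s c' => simp at hl
  | cons s c =>
    cases c' with
    | nil => simp at hl
    | cons s' c' =>
      simp only [wt, ww, pw, List.cons_append, List.nil_append, List.tail_cons, List.cons.injEq,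
        Lt.A.injEq, true_and] at h
      obtain ⟨h1, -, h2⟩ := h
      rw [h1, ww_injective h2]

end Pool.Agent.H64.FG
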